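import Pool.Agent.Lib.P704aa6.RC

/-!
# Joins, delayed codings and finite modifications
-/

namespace Pool.Agent.Lib.P704aa6

open Encodable Denumerable
open Pool.Agent.Lib.P2f7dfd (RT real)

/-- The join `a ⊕ b`. -/
def join (a b : ℕ → Bool) : ℕ → Bool := fun n => if n % 2 = 0 then a (n / 2) else b (n / 2)

theorem join_even (a b : ℕ → Bool) (n : ℕ) : join a b (2 * n) = a n := by
  simp [join]

theorem join_odd (a b : ℕ → Bool) (n : ℕ) : join a b (2 * n + 1) = b n := by
  have h1 : (2 * n + 1) % 2 = 1 := by omega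
  have h2 : (2 * n + 1) / 2 = n := by omega
  simp [join, h2]

variable {O : Set (ℕ →. ℕ)} {a b c : ℕ → Bool}

theorem rc_left (h : RC O (join a b)) : RC O a := by
  refine (h.comp (g := fun n => 2 * n) (RC.ofPrim ?_)).congr fun n => join_even a b n
  exact Primrec.nat_mul.comp (Primrec.const 2) Primrec.id

theorem rc_right (h : RC O (join a b)) : RC O b := by
  refine (h.comp (g := fun n => 2 * n + 1) (RC.ofPrim ?_)).congr fun n => join_odd a b n
  exact Primrec.succ.comp (Primrec.nat_mul.comp (Primrec.const 2) Primrec.id)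

theorem rc_join (ha : RC O a) (hb : RC O b) : RC O (join a b) := by
  have h2 : RC O fun n : ℕ => n / 2 :=
    RC.ofPrim (Primrec.nat_div.comp Primrec.id (Primrec.const 2))
  have h1 : RC O fun n : ℕ => decide (n % 2 = 0) := RC.ofPrim
    (PrimrecPred.decide (Primrec.eq.comp (Primrec.nat_mod.comp Primrec.id (Primrec.const 2))
      (Primrec.const 0)))
  refine (RC.cond h1 (ha.comp h2) (hb.comp h2)).congr fun n => ?_
  simp [join]

theorem tRed_join (ha : TRed a c) (hb : TRed b c) : TRed (join a b) c :=
  tRed_iff.2 (rc_join (tRed_iff.1 ha) (tRed_iff.1 hb))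

theorem tRed_join_left (a b : ℕ → Bool) : TRed a (join a b) := tRed_iff.2 (rc_left (rc_self _))

theorem tRed_join_right (a b : ℕ → Bool) : TRed b (join a b) := tRed_iff.2 (rc_right (rc_self _))

/-! ### The delayed coding -/

/-- The number of ones of `e` below `n`. -/
def cnt (e : ℕ → Bool) (n : ℕ) : ℕ := Nat.rec 0 (fun n c => if e n = true then c + 1 else c) n

theorem cnt_succ (e : ℕ → Bool) (n : ℕ) :
    cnt e (n + 1) = if e n = true then cnt e n + 1 else cnt e n := rfl

theorem rc_cnt {e : ℕ → Bool} (he : RC O e) : RC O (cnt e) := by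
  have h1 : RC O fun _ : Unit => (0 : ℕ) := RC.const 0
  have h2 : RC O fun p : Unit × ℕ × ℕ => if e p.2.1 = true then p.2.2 + 1 else p.2.2 :=
    RC.cond (he.comp (RC.ofPrim (Primrec.fst.comp Primrec.snd)))
      (RC.ofPrim (Primrec.succ.comp (Primrec.snd.comp Primrec.snd)))
      (RC.ofPrim (Primrec.snd.comp Primrec.snd))
  exact ((h1.nat_rec h2).comp ((RC.const ()).pair RC.id)).congr fun n => rfl

/-- The bits of `z` are placed at the positions of the ones of `e`. -/
def spread (e z : ℕ → Bool) : ℕ → Bool := fun n => e n && z (cnt e n)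

theorem rc_spread {e z : ℕ → Bool} (he : RC O e) (hz : RC O z) : RC O (spread e z) :=
  RC.ofComp₂ (f := fun a b : Bool => a && b) (Primrec.and.to_comp) he (hz.comp (rc_cnt he))

theorem exists_cnt {e : ℕ → Bool} (he : ∀ m, ∃ n ≥ m, e n = true) (j : ℕ) :
    ∃ n, e n = true ∧ cnt e n = j := by
  have hmono : ∀ m n, m ≤ n → (∀ i, m ≤ i → i < n → e i = false) → cnt e n = cnt e m := by
    intro m n hmn h
    induction n, hmn using Nat.le_induction with
    | base => rfl
    | succ n hn ih =>
      rw [cnt_succ, h n hn (by omega), ih fun i hi hi' => h i hi (by omega)]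
      simp
  have key : ∀ m, ∃ n, m ≤ n ∧ e n = true ∧ cnt e n = cnt e m := by
    intro m
    have hex : ∃ n, m ≤ n ∧ e n = true := he m
    refine ⟨Nat.find hex, (Nat.find_spec hex).1, (Nat.find_spec hex).2, ?_⟩
    refine hmono _ _ (Nat.find_spec hex).1 fun i hi hi' => ?_
    have := Nat.find_min hex hi'
    simp only [not_and, Bool.not_eq_true] at this
    exact this hi
  induction j with
  | zero =>
    obtain ⟨n, -, hn, hn'⟩ := key 0
    exact ⟨n, hn, hn'⟩
  | succ j ih =>
    obtain ⟨n, hn, hn'⟩ := ih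
    obtain ⟨n', -, h1, h2⟩ := key (n + 1)
    refine ⟨n', h1, ?_⟩
    rw [h2, cnt_succ, hn, hn']
    simp

/-- The ones of `e` have the form needed to recover `z`. -/
theorem rc_of_spread {e z : ℕ → Bool} (hinf : ∀ m, ∃ n ≥ m, e n = true) (he : RC O e)
    (hs : RC O (spread e z)) : RC O z := by
  have hex : ∀ j : ℕ, ∃ n, (e n && decide (cnt e n = j)) = true := by
    intro j
    obtain ⟨n, hn, hn'⟩ := exists_cnt hinf j
    exact ⟨n, by simp [hn, hn']⟩
  have h1 : RC O fun p : ℕ × ℕ => (e p.2 && decide (cnt e p.2 = p.1)) := by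
    refine RC.ofComp₂ (f := fun a b : Bool => a && b) (Primrec.and.to_comp)
      (he.comp (RC.ofPrim Primrec.snd)) ?_
    exact RC.ofComp₂ (f := fun a b : ℕ => decide (a = b))
      (PrimrecPred.decide (Primrec.eq.comp Primrec.fst Primrec.snd)).to_comp
      ((rc_cnt he).comp (RC.ofPrim Primrec.snd)) (RC.ofPrim Primrec.fst)
  obtain ⟨g, hg, hg'⟩ := RC.exists_find h1 hex
  refine (hs.comp hg).congr fun j => ?_
  have h3 := (hg' j).1
  simp only [Bool.and_eq_true, decide_eq_true_eq] at h3
  simp only [spread]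
  rw [h3.1, h3.2]
  simp

theorem tRed_spread {e z : ℕ → Bool} : TRed (join e (spread e z)) (join z e) :=
  tRed_join (tRed_join_right _ _)
    (tRed_iff.2 (rc_spread (rc_right (rc_self _)) (rc_left (rc_self _))))

theorem tRed_of_spread {e z : ℕ → Bool} (hinf : ∀ m, ∃ n ≥ m, e n = true) :
    TRed (join z e) (join e (spread e z)) :=
  tRed_join (tRed_iff.2 (rc_of_spread hinf (rc_left (rc_self _)) (rc_right (rc_self _))))
    (tRed_join_left _ _)

/-! ### Finite modifications -/

/-- Put the string `σ` in front of `z`. -/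
def app (σ : List Bool) (z : ℕ → Bool) : ℕ → Bool :=
  fun n => if n < σ.length then σ.getD n false else z (n - σ.length)

theorem app_of_lt {σ : List Bool} {z : ℕ → Bool} {n : ℕ} (h : n < σ.length) :
    app σ z n = σ.getD n false := by simp [app, h]

theorem app_add (σ : List Bool) (z : ℕ → Bool) (n : ℕ) : app σ z (n + σ.length) = z n := by
  simp [app]

theorem rc_app (σ : List Bool) {z : ℕ → Bool} (hz : RC O z) : RC O (app σ z) := by
  have h1 : RC O fun n : ℕ => decide (n < σ.length) := RC.ofPrim
    (PrimrecPred.decide (Primrec.nat_lt.comp Primrec.id (Primrec.const _)))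
  have h2 : RC O fun n : ℕ => σ.getD n false := RC.ofPrim
    ((Primrec.list_getD false).comp (Primrec.const σ) Primrec.id)
  have h3 : RC O fun n : ℕ => n - σ.length := RC.ofPrim
    (Primrec.nat_sub.comp Primrec.id (Primrec.const _))
  exact (RC.cond h1 h2 (hz.comp h3)).congr fun n => by simp [app]

theorem rc_of_app {σ : List Bool} {z : ℕ → Bool} (h : RC O (app σ z)) : RC O z := by
  refine (h.comp (g := fun n => n + σ.length) (RC.ofPrim ?_)).congr fun n => app_add σ z n
  exact Primrec.nat_add.comp Primrec.id (Primrec.const _)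

end Pool.Agent.Lib.P704aa6
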