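import Pool.Agent.Lib.P704aa6.Tree

/-!
# Invariant functions which are continuous on a pointed perfect set
-/

namespace Pool.Agent.Lib.P704aa6

open Encodable Denumerable Topology
open Pool.Agent.Lib.P2f7dfd (RT real)

variable {O : Set (ℕ →. ℕ)} {T : Set (List Bool)} {S : List Bool → List Bool}

theorem rc_subst {α β : Type} [Primcodable α] [Primcodable β] {f : α → β} {a : ℕ → Bool}
    (hf : RC {real a} f) (h : RC O a) : RC O f := by
  obtain ⟨F, hF, hF'⟩ := hf
  obtain ⟨G, hG, hG'⟩ := h
  refine ⟨F, Nat.RecursiveIn.subst hF ?_, hF'⟩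
  intro g hg
  rw [Set.mem_singleton_iff] at hg
  subst hg
  refine hG.of_eq fun n => ?_
  have := hG' n
  rw [encode_nat] at this
  simp only [real]
  rw [this]
  cases a n <;> rfl

theorem rc_of_emb (hT : PerfectTree T) (hS : IsSplitter T S) {w : ℕ → Bool}
    (h : RC O (treeReal T)) (hw : RC O (emb S w)) : RC O w := by
  have h0 : RC O S := rc_subst hS.rc h
  have h1 : ∀ n, node S (fun _ σ => emb S w σ.length) n = node S (fun i _ => w i) n := by
    intro n
    induction n with
    | zero => rfl
    | succ n ih =>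
      rw [node_succ, node_succ, ih, emb_length_node hT hS]
  have h2 : RC O (node S fun _ σ => emb S w σ.length) :=
    rc_node h0 (hw.comp (RC.ofPrim (Primrec.list_length.comp Primrec.snd)))
  refine (hw.comp ((RC.ofPrim Primrec.list_length).comp h2)).congr fun n => ?_
  rw [h1, emb_length_node hT hS]

theorem node_congr (S : List Bool → List Bool) {w w' : ℕ → Bool} (n : ℕ)
    (h : ∀ i < n, w i = w' i) : node S (fun i _ => w i) n = node S (fun i _ => w' i) n := by
  induction n with
  | zero => rfl
  | succ n ih =>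
    rw [node_succ, node_succ, ih fun i hi => h i (by omega), h n (by omega)]

theorem continuous_of_local {F : (ℕ → Bool) → Bool} (m : ℕ)
    (h : ∀ w w' : ℕ → Bool, (∀ i < m, w i = w' i) → F w = F w') : Continuous F := by
  rw [continuous_iff_continuousAt]
  intro w
  have h1 : {w' : ℕ → Bool | ∀ i < m, w' i = w i} ∈ 𝓝 w := by
    have : {w' : ℕ → Bool | ∀ i < m, w' i = w i} = ⋂ i ∈ Set.Iio m, {w' | w' i = w i} := by
      ext; simp
    rw [this]
    refine (Filter.biInter_mem (Set.finite_Iio m)).2 fun i _ => ?_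
    have h2 : IsOpen ((fun w' : ℕ → Bool => w' i) ⁻¹' {w i}) :=
      (isOpen_discrete _).preimage (continuous_apply i)
    exact h2.mem_nhds rfl
  refine ContinuousAt.congr (f := fun _ => F w) continuousAt_const ?_
  filter_upwards [h1] with w' hw'
  exact (h w' w hw').symm

theorem continuous_emb (S : List Bool → List Bool) : Continuous (emb S) := by
  refine continuous_pi fun n => continuous_of_local (n + 1) fun w w' h => ?_
  unfold emb
  rw [node_congr S (n + 1) h]

theorem continuous_join : Continuous fun p : (ℕ → Bool) × (ℕ → Bool) => join p.1 p.2 := by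
  refine continuous_pi fun n => ?_
  unfold join
  split_ifs
  · exact (continuous_apply _).comp continuous_fst
  · exact (continuous_apply _).comp continuous_snd

theorem continuous_cnt (n : ℕ) : Continuous fun e : ℕ → Bool => cnt e n := by
  induction n with
  | zero => exact continuous_const
  | succ n ih =>
    simp only [cnt_succ]
    have : Continuous fun p : Bool × ℕ => if p.1 = true then p.2 + 1 else p.2 :=
      continuous_of_discreteTopology
    exact this.comp ((continuous_apply n).prodMk ih)

theorem continuous_eval : Continuous fun p : (ℕ → Bool) × ℕ => p.1 p.2 := by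
  rw [continuous_iff_continuousAt]
  rintro ⟨z, m⟩
  have h1 : Continuous fun p : (ℕ → Bool) × ℕ => p.1 m := (continuous_apply m).comp continuous_fst
  refine h1.continuousAt.congr ?_
  have h2 : {p : (ℕ → Bool) × ℕ | p.2 = m} ∈ 𝓝 (z, m) :=
    (isOpen_discrete {m}).preimage continuous_snd |>.mem_nhds rfl
  filter_upwards [h2] with p hp
  rw [hp]

theorem continuous_spread : Continuous fun p : (ℕ → Bool) × (ℕ → Bool) => spread p.2 p.1 := by
  refine continuous_pi fun n => ?_
  unfold spread
  have h1 : Continuous fun p : (ℕ → Bool) × (ℕ → Bool) => p.2 n :=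
    (continuous_apply n).comp continuous_snd
  have h2 : Continuous fun p : (ℕ → Bool) × (ℕ → Bool) => p.1 (cnt p.2 n) :=
    continuous_eval.comp (continuous_fst.prodMk ((continuous_cnt n).comp continuous_snd))
  have h3 : Continuous fun p : Bool × Bool => p.1 && p.2 := continuous_of_discreteTopology
  exact h3.comp (h1.prodMk h2)

/-- Turing equivalence of reals. -/
def TEquiv (x y : ℕ → Bool) : Prop := TRed x y ∧ TRed y x

/-- A basic open set of Cantor space inside an open set. -/
theorem exists_ini_subset {U : Set ((ℕ → Bool) × (ℕ → Bool))} (hU : IsOpen U)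
    {p : (ℕ → Bool) × (ℕ → Bool)} (hp : p ∈ U) : ∃ n, ∀ q : (ℕ → Bool) × (ℕ → Bool),
      (∀ i < n, q.1 i = p.1 i) → (∀ i < n, q.2 i = p.2 i) → q ∈ U := by
  have h1 := hU.mem_nhds hp
  have key : ∀ (z : ℕ → Bool) (V : Set (ℕ → Bool)), V ∈ 𝓝 z →
      ∃ n, ∀ y : ℕ → Bool, (∀ i < n, y i = z i) → y ∈ V := by
    intro z V hV
    rw [nhds_pi, Filter.mem_pi] at hV
    obtain ⟨I, hI, t, ht, htV⟩ := hV
    refine ⟨hI.toFinset.sup id + 1, fun y hy => htV fun i hi => ?_⟩
    rw [hy i (Nat.lt_succ_of_le (Finset.le_sup (f := id) (hI.mem_toFinset.2 hi)))]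
    exact mem_of_mem_nhds (ht i)
  obtain ⟨z, e⟩ := p
  rw [nhds_prod_eq, Filter.mem_prod_iff] at h1
  obtain ⟨V, hV, W, hW, hVW⟩ := h1
  obtain ⟨n, hn⟩ := key z V hV
  obtain ⟨m, hm⟩ := key e W hW
  refine ⟨max n m, fun q hq hq' => hVW ⟨hn _ fun i hi => hq i (lt_max_of_lt_left hi),
    hm _ fun i hi => hq' i (lt_max_of_lt_right hi)⟩⟩

theorem cnt_le (e : ℕ → Bool) (n : ℕ) : cnt e n ≤ n := by
  induction n with
  | zero => exact le_rfl
  | succ n ih =>
    rw [cnt_succ]
    split_ifs <;> omega

/-- The category argument. -/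
theorem category (g : (ℕ → Bool) → (ℕ → Bool)) (hg : Continuous g)
    (ψ : ℕ → (ℕ → Bool) → (ℕ → Bool)) (hψ : ∀ k, Continuous (ψ k))
    (h : ∀ z e : ℕ → Bool, (∀ m, ∃ n ≥ m, e n = true) →
      ∃ k, g (join z e) = ψ k (g (join e (spread e z)))) :
    ∃ (σ τ : List Bool) (v : ℕ → Bool), ∀ z, g (join (app σ z) (app τ fun _ => false)) = v := by
  -- the closed sets
  let C : Option (ℕ ⊕ ℕ) → Set ((ℕ → Bool) × (ℕ → Bool)) := fun o => match o with
    | none => ∅
    | some (Sum.inl k) => {p | g (join p.1 p.2) = ψ k (g (join p.2 (spread p.2 p.1)))}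
    | some (Sum.inr m) => {p | ∀ n, m ≤ n → p.2 n = false}
  have hC : ∀ o, IsClosed (C o) := by
    rintro (_ | (k | m))
    · exact isClosed_empty
    · refine isClosed_eq (hg.comp continuous_join) ((hψ k).comp (hg.comp ?_))
      exact continuous_join.comp (continuous_snd.prodMk continuous_spread)
    · simp only [C, Set.ofPred_forall]
      refine isClosed_iInter fun n => isClosed_iInter fun _ => ?_
      exact isClosed_eq ((continuous_apply n).comp continuous_snd) continuous_const
  have hU : ⋃ o, C o = Set.univ := by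
    refine Set.eq_univ_of_forall fun p => ?_
    rw [Set.mem_iUnion]
    by_cases hp : ∀ m, ∃ n ≥ m, p.2 n = true
    · obtain ⟨k, hk⟩ := h p.1 p.2 hp
      exact ⟨some (Sum.inl k), hk⟩
    · push Not at hp
      obtain ⟨m, hm⟩ := hp
      refine ⟨some (Sum.inr m), fun n hn => ?_⟩
      have := hm n hn
      simpa using this
  obtain ⟨o, ho⟩ := nonempty_interior_of_iUnion_of_closed hC hU
  obtain ⟨p, hp⟩ := ho
  obtain ⟨n, hn⟩ := exists_ini_subset isOpen_interior hp
  match o, hn with
  | none, hn =>
    exact absurd (interior_subset (hn p (fun _ _ => rfl) fun _ _ => rfl)) (Set.notMem_empty _)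
  | some (Sum.inr m), hn =>
    exfalso
    have h1 := interior_subset (hn (p.1, fun i => if i < n then p.2 i else true)
      (fun _ _ => rfl) (fun i hi => by simp [hi]))
    have h2 := h1 (max m n) (le_max_left _ _)
    simp at h2
  | some (Sum.inl k), hn =>
    refine ⟨ini p.1 n, ini p.2 n,
      ψ k (g (join (app (ini p.2 n) fun _ => false)
        (spread (app (ini p.2 n) fun _ => false) (app (ini p.1 n) fun _ => false)))), fun z => ?_⟩
    have h1 := interior_subset (hn (app (ini p.1 n) z, app (ini p.2 n) fun _ => false)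
      (fun i hi => by
        simp only
        rw [app_of_lt (by simpa using hi), ini_getD _ hi])
      (fun i hi => by
        simp only
        rw [app_of_lt (by simpa using hi), ini_getD _ hi]))
    change g (join (app (ini p.1 n) z) (app (ini p.2 n) fun _ => false)) = _ at h1
    rw [h1]
    simp only
    congr 3
    funext i
    unfold spread
    by_cases hi : i < n
    · have h2 : cnt (app (ini p.2 n) fun _ => false) i < n := lt_of_le_of_lt (cnt_le _ _) hi
      rw [app_of_lt (z := z) (by simpa using h2), app_of_lt (z := fun _ => false)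
        (n := cnt _ i) (by simpa using h2)]
    · have h2 : app (ini p.2 n) (fun _ => false) i = false := by
        simp [app, hi]
      rw [h2]
      simp

/-- The main theorem, for any relation which is contained in the union of countably many graphs
of continuous functions. -/
theorem main {R : (ℕ → Bool) → (ℕ → Bool) → Prop}
    (hR : ∃ ψ : ℕ → (ℕ → Bool) → (ℕ → Bool), (∀ k, Continuous (ψ k)) ∧
      ∀ a b, R a b → ∃ k, a = ψ k b)
    {f : (ℕ → Bool) → (ℕ → Bool)} {c : ℕ → Bool}
    (hf : ∀ x y, TRed c x → TRed c y → TEquiv x y → R (f x) (f y))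
    (hT : PointedPerfect T) (hcont : ContinuousOn f {x ∈ branches T | TRed c x}) :
    ∃ d v : ℕ → Bool, TRed c d ∧ ∀ x, TRed d x → ∃ y, TEquiv x y ∧ f y = v := by
  obtain ⟨ψ, hψ, hψR⟩ := hR
  obtain ⟨S, hS, hS'⟩ := exists_splitter hT.1
  have hSp : IsSplitter T S := ⟨hS, hS'⟩
  set t := treeReal T with ht
  -- the embedding
  let k : (ℕ → Bool) → (ℕ → Bool) := fun w => emb S (join w c)
  have hk1 : ∀ {O w}, RC O w → RC O c → RC O t → RC O (k w) := fun hw hc ht =>
    rc_emb hSp ht (rc_join hw hc)
  have hkt : ∀ w, TRed t (k w) := fun w => hT.2 _ (emb_mem hT.1 hSp _)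
  have hkj : ∀ w, RC {real (k w)} (join w c) := fun w =>
    rc_of_emb hT.1 hSp (tRed_iff.1 (hkt w)) (rc_self _)
  have hkc : ∀ w, TRed c (k w) := fun w => tRed_iff.2 (rc_right (hkj w))
  have hkw : ∀ w, TRed w (k w) := fun w => tRed_iff.2 (rc_left (hkj w))
  have hkk : ∀ w w', TRed w w' → TRed (k w) (k w') := fun w w' h => tRed_iff.2
    (hk1 ((tRed_iff.1 h).mono (hkw w')) (tRed_iff.1 (hkc w')) (tRed_iff.1 (hkt w')))
  have hkcont : Continuous k :=
    (continuous_emb S).comp (continuous_join.comp (continuous_id.prodMk continuous_const))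
  have hgcont : Continuous fun w => f (k w) :=
    hcont.comp_continuous hkcont fun w => ⟨emb_mem hT.1 hSp _, hkc w⟩
  obtain ⟨σ, τ, v, hv⟩ := category (fun w => f (k w)) hgcont ψ hψ fun z e hinf =>
    hψR _ _ (hf _ _ (hkc _) (hkc _) ⟨hkk _ _ (tRed_of_spread hinf), hkk _ _ tRed_spread⟩)
  refine ⟨join c t, v, tRed_join_left _ _, fun x hx => ?_⟩
  refine ⟨k (join (app σ x) (app τ fun _ => false)), ⟨?_, ?_⟩, hv x⟩
  · have h1 := hkw (join (app σ x) (app τ fun _ => false))
    exact tRed_iff.2 (rc_of_app (rc_left (tRed_iff.1 h1)))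
  · have h1 : RC {real x} (join c t) := tRed_iff.1 hx
    refine tRed_iff.2 (hk1 ?_ (rc_left h1) (rc_right h1))
    exact rc_join (rc_app σ (rc_self x)) (rc_app τ (RC.const false))

end Pool.Agent.Lib.P704aa6
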