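import Pool.Agent.Lib.P2f7dfd.Functional
import Pool.Agent.Lib.P2f7dfd.RecIn

/-!
# Total functions between coded types recursive in an oracle
-/

namespace Pool.Agent.Lib.P704aa6

open Encodable Denumerable
open Pool.Agent.Lib.P2f7dfd (RT real)

variable {O : Set (ℕ →. ℕ)} {α β γ δ : Type} [Primcodable α] [Primcodable β] [Primcodable γ]
  [Primcodable δ]

/-- `f` is recursive in the oracles `O`. -/
def RC (O : Set (ℕ →. ℕ)) {α β : Type} [Primcodable α] [Primcodable β] (f : α → β) : Prop :=
  ∃ F : ℕ → ℕ, RT O F ∧ ∀ a, F (encode a) = encode (f a)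

theorem RC.of_computable {f : α → β} (hf : Computable f) : RC O f := by
  refine ⟨fun n => encode (Option.map f (decode n)) - 1, RT.of_computable ?_, fun a => ?_⟩
  · exact (Primrec.pred.to_comp).comp (Computable.encode.comp
      (Computable.option_map Computable.decode (hf.comp Computable.snd).to₂))
  · simp

theorem RC.comp {f : β → γ} {g : α → β} (hf : RC O f) (hg : RC O g) : RC O fun a => f (g a) := by
  obtain ⟨F, hF, hF'⟩ := hf
  obtain ⟨G, hG, hG'⟩ := hg
  exact ⟨_, hF.comp hG, fun a => by rw [hG', hF']⟩

theorem RC.pair {f : α → β} {g : α → γ} (hf : RC O f) (hg : RC O g) :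
    RC O fun a => (f a, g a) := by
  obtain ⟨F, hF, hF'⟩ := hf
  obtain ⟨G, hG, hG'⟩ := hg
  exact ⟨_, hF.pair hG, fun a => by rw [hG', hF', encode_prod_val]⟩

theorem RC.comp₂ {f : β × γ → δ} {g : α → β} {h : α → γ} (hf : RC O f) (hg : RC O g)
    (hh : RC O h) : RC O fun a => f (g a, h a) := hf.comp (hg.pair hh)

theorem RC.ofComp₂ {f : β → γ → δ} {g : α → β} {h : α → γ} (hf : Computable₂ f) (hg : RC O g)
    (hh : RC O h) : RC O fun a => f (g a) (h a) :=
  (RC.of_computable hf : RC O fun p : β × γ => f p.1 p.2).comp (hg.pair hh)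

theorem RC.ofPrim {f : α → β} (hf : Primrec f) : RC O f := RC.of_computable hf.to_comp

theorem RC.congr {f g : α → β} (hf : RC O f) (h : ∀ a, f a = g a) : RC O g := by
  have : f = g := funext h
  rwa [← this]

theorem RC.const (b : β) : RC O fun _ : α => b := RC.of_computable (Computable.const b)

theorem RC.id : RC O fun a : α => a := RC.of_computable Computable.id

theorem RC.nat_rec {f : α → β} {g : α × ℕ × β → β} (hf : RC O f) (hg : RC O g) :
    RC O fun p : α × ℕ => (Nat.rec (f p.1) (fun n ih => g (p.1, n, ih)) p.2 : β) := by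
  obtain ⟨F, hF, hF'⟩ := hf
  obtain ⟨G, hG, hG'⟩ := hg
  refine ⟨_, hF.prec hG, fun p => ?_⟩
  obtain ⟨a, n⟩ := p
  simp only [encode_prod_val, encode_nat, Nat.unpair_pair]
  induction n with
  | zero => exact hF' a
  | succ n ih =>
    simp only at ih ⊢
    rw [ih]
    have := hG' (a, n, (Nat.rec (f a) (fun n ih => g (a, n, ih)) n : β))
    simpa [encode_prod_val] using this

theorem RC.find [Inhabited α] {p : α × ℕ → Bool} (hp : RC O p) (h : ∀ a, ∃ n, p (a, n) = true) :
    RC O fun a => Nat.find (h a) := by
  obtain ⟨F, hF, hF'⟩ := hp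
  have hn : RT O fun x : ℕ => encode ((decode (α := α) x).getD default) :=
    RT.of_computable (Computable.encode.comp
      (Computable.option_getD Computable.decode (Computable.const _)))
  have h1 : RT O fun x : ℕ =>
      1 - F (Nat.pair (encode ((decode (α := α) x.unpair.1).getD default)) x.unpair.2) := by
    have h2 : RT O fun x : ℕ =>
        Nat.pair (encode ((decode (α := α) x.unpair.1).getD default)) x.unpair.2 :=
      RT.pair (hn.comp (RT.of_computable (Primrec.fst.comp Primrec.unpair).to_comp))
        (RT.of_computable (Primrec.snd.comp Primrec.unpair).to_comp)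
    exact (RT.of_computable (O := O) (f := fun x => 1 - x)
      (Primrec.nat_sub.comp (Primrec.const 1) Primrec.id).to_comp).comp (hF.comp h2)
  have h3 := Nat.RecursiveIn.rfind h1
  refine ⟨fun x => Nat.find (h ((decode (α := α) x).getD default)), ?_, fun a => by simp⟩
  refine h3.of_eq fun x => ?_
  set a : α := (decode (α := α) x).getD default with ha
  refine Part.eq_some_iff.2 ?_
  rw [Nat.mem_rfind]
  simp only [Part.map_eq_map, Part.mem_map_iff, Part.mem_some_iff, exists_eq_left,
    Nat.unpair_pair]
  have h4 : ∀ n, F (Nat.pair (encode a) n) = encode (p (a, n)) := by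
    intro n
    have := hF' (a, n)
    simpa [encode_prod_val] using this
  rw [← ha]
  constructor
  · rw [h4, Nat.find_spec (h a)]
    simp
  · intro m hm
    rw [h4]
    have := Nat.find_min (h a) hm
    simp only [Bool.not_eq_true] at this
    rw [this]
    simp

theorem RC.exists_find [Inhabited α] {p : α × ℕ → Bool} (hp : RC O p)
    (h : ∀ a, ∃ n, p (a, n) = true) :
    ∃ g : α → ℕ, RC O g ∧ ∀ a, p (a, g a) = true ∧ ∀ m < g a, p (a, m) = false :=
  ⟨_, RC.find hp h, fun a => ⟨Nat.find_spec (h a), fun m hm => by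
    have := Nat.find_min (h a) hm
    simpa using this⟩⟩

theorem RC.cond {c : α → Bool} {f g : α → β} (hc : RC O c) (hf : RC O f) (hg : RC O g) :
    RC O fun a => if c a = true then f a else g a := by
  have h : Computable fun p : Bool × β × β => if p.1 = true then p.2.1 else p.2.2 := by
    refine (Computable.cond Computable.fst (Computable.fst.comp Computable.snd)
      (Computable.snd.comp Computable.snd)).of_eq fun p => ?_
    cases p.1 <;> simp
  exact (RC.of_computable h).comp (hc.pair (hf.pair hg))

/-! ## Reals -/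

/-- Turing reducibility of reals. -/
def TRed (a b : ℕ → Bool) : Prop := TuringReducible (real a) (real b)

theorem TRed.refl (a : ℕ → Bool) : TRed a a := TuringReducible.refl _

theorem TRed.trans {a b c : ℕ → Bool} (h : TRed a b) (h' : TRed b c) : TRed a c :=
  TuringReducible.trans h h'

theorem tRed_iff {a b : ℕ → Bool} : TRed a b ↔ RC {real b} a := by
  constructor
  · intro h
    refine ⟨fun n => (a n).toNat, RecursiveIn.iff_nat.1 h, fun n => ?_⟩
    simp only [encode_nat]
    cases a n <;> rfl
  · rintro ⟨F, hF, hF'⟩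
    refine RecursiveIn.iff_nat.2 (hF.of_eq fun n => ?_)
    have := hF' n
    rw [encode_nat] at this
    simp only [real]
    rw [this]
    cases a n <;> rfl

theorem rc_self (a : ℕ → Bool) : RC {real a} a := tRed_iff.1 (TRed.refl a)

/-- Functions recursive in `a` are recursive in `b` if `a ≤_T b`. -/
theorem RC.mono {f : α → β} {a b : ℕ → Bool} (hf : RC {real a} f) (h : TRed a b) :
    RC {real b} f := by
  obtain ⟨F, hF, hF'⟩ := hf
  exact ⟨F, Nat.RecursiveIn.subst hF (by simpa using RecursiveIn.iff_nat.1 h), hF'⟩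

end Pool.Agent.Lib.P704aa6
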