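import Pool.Agent.Lib.P704aa6.Coding

/-!
# Pointed perfect trees
-/

namespace Pool.Agent.Lib.P704aa6

open Encodable Denumerable
open Pool.Agent.Lib.P2f7dfd (RT real)

/-- The initial segment of `x` of length `n`. -/
def ini (x : ℕ → Bool) (n : ℕ) : List Bool := (List.range n).map x

@[simp] theorem ini_length (x : ℕ → Bool) (n : ℕ) : (ini x n).length = n := by simp [ini]

theorem ini_getD (x : ℕ → Bool) {n i : ℕ} (h : i < n) : (ini x n).getD i false = x i := by
  simp [ini, List.getD_eq_getElem?_getD, h]

theorem eq_ini {x : ℕ → Bool} {σ : List Bool} (h : ∀ i < σ.length, σ.getD i false = x i) :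
    σ = ini x σ.length := by
  refine List.ext_getElem (by simp) fun i h1 h2 => ?_
  have := h i h1
  rw [List.getD_eq_getElem _ _ h1] at this
  rw [this]
  simp [ini]

/-- A perfect tree: a nonempty set of binary strings, closed under initial segments, in which
every string has a splitting extension. -/
structure PerfectTree (T : Set (List Bool)) : Prop where
  nil : [] ∈ T
  closed : ∀ σ τ, τ ∈ T → σ <+: τ → σ ∈ T
  split : ∀ σ ∈ T, ∃ τ, σ <+: τ ∧ τ ++ [false] ∈ T ∧ τ ++ [true] ∈ T

/-- The set `[T]` of infinite branches of `T`. -/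
def branches (T : Set (List Bool)) : Set (ℕ → Bool) := {x | ∀ n, ini x n ∈ T}

open Classical in
/-- The tree `T`, coded as a real. -/
noncomputable def treeReal (T : Set (List Bool)) : ℕ → Bool :=
  fun n => decide (∃ σ ∈ T, encode σ = n)

/-- `T` is perfect and is recursive in each of its branches. -/
def PointedPerfect (T : Set (List Bool)) : Prop :=
  PerfectTree T ∧ ∀ x ∈ branches T, TRed (treeReal T) x

variable {O : Set (ℕ →. ℕ)} {T : Set (List Bool)}

open Classical in
theorem rc_mem (h : RC O (treeReal T)) : RC O fun σ : List Bool => decide (σ ∈ T) := by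
  refine (h.comp (g := fun σ : List Bool => encode σ) (RC.ofPrim Primrec.encode)).congr
    fun σ => ?_
  simp only [treeReal, decide_eq_decide]
  constructor
  · rintro ⟨τ, h, h'⟩
    rwa [encode_injective h'] at h
  · intro h
    exact ⟨σ, h, rfl⟩

theorem prim_prefix : Primrec fun p : List Bool × List Bool => decide (p.1 <+: p.2) := by
  have : Primrec fun p : List Bool × List Bool => decide (p.2.take p.1.length = p.1) :=
    PrimrecPred.decide (Primrec.eq.comp (Primrec.list_take.comp
      (Primrec.list_length.comp Primrec.fst) Primrec.snd) Primrec.fst)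
  refine this.of_eq fun p => ?_
  rw [decide_eq_decide, List.prefix_iff_eq_take]
  exact eq_comm

open Classical in
/-- The splitting operation, recursive in the tree. -/
theorem exists_splitter (hT : PerfectTree T) : ∃ S : List Bool → List Bool,
    RC {real (treeReal T)} S ∧ ∀ σ ∈ T, σ <+: S σ ∧ S σ ++ [false] ∈ T ∧ S σ ++ [true] ∈ T := by
  have hm := rc_mem (rc_self (treeReal T))
  set d : ℕ → List Bool := fun n => ((decode n : Option (List Bool))).getD [] with hd
  have hdc : Computable d :=
    Computable.option_getD Computable.decode (Computable.const [])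
  have h1 : RC {real (treeReal T)} fun p : List Bool × ℕ =>
      (!decide (p.1 ∈ T)) || (decide (p.1 <+: d p.2) &&
        (decide (d p.2 ++ [false] ∈ T) && decide (d p.2 ++ [true] ∈ T))) := by
    have e1 : RC {real (treeReal T)} fun p : List Bool × ℕ => !decide (p.1 ∈ T) :=
      (RC.of_computable Primrec.not.to_comp).comp (hm.comp (RC.ofPrim Primrec.fst))
    have e2 : RC {real (treeReal T)} fun p : List Bool × ℕ => decide (p.1 <+: d p.2) :=
      RC.of_computable (prim_prefix.to_comp.comp
        (Computable.pair Computable.fst (hdc.comp Computable.snd)))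
    have e3 : ∀ b : Bool, RC {real (treeReal T)} fun p : List Bool × ℕ =>
        decide (d p.2 ++ [b] ∈ T) := fun b =>
      hm.comp (RC.of_computable (Computable.list_append.comp (hdc.comp Computable.snd)
        (Computable.const [b])))
    exact RC.ofComp₂ (f := fun a b : Bool => a || b) Primrec.or.to_comp e1
      (RC.ofComp₂ (f := fun a b : Bool => a && b) Primrec.and.to_comp e2
        (RC.ofComp₂ (f := fun a b : Bool => a && b) Primrec.and.to_comp (e3 false) (e3 true)))
  have h2 : ∀ σ : List Bool, ∃ n, ((!decide (σ ∈ T)) || (decide (σ <+: d n) &&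
        (decide (d n ++ [false] ∈ T) && decide (d n ++ [true] ∈ T)))) = true := by
    intro σ
    by_cases hσ : σ ∈ T
    · obtain ⟨τ, h1, h2, h3⟩ := hT.split σ hσ
      refine ⟨encode τ, ?_⟩
      simp [hd, h1, h2, h3]
    · exact ⟨0, by simp [hσ]⟩
  obtain ⟨g, hg, hg'⟩ := RC.exists_find h1 h2
  refine ⟨fun σ => d (g σ), (RC.of_computable hdc).comp hg, fun σ hσ => ?_⟩
  have := (hg' σ).1
  simpa [hσ] using this

/-- The sequence of splitting nodes chosen by `b`. -/
def node (S : List Bool → List Bool) (b : ℕ → List Bool → Bool) (n : ℕ) : List Bool :=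
  Nat.rec (S []) (fun n σ => S (σ ++ [b n σ])) n

theorem node_succ (S : List Bool → List Bool) (b : ℕ → List Bool → Bool) (n : ℕ) :
    node S b (n + 1) = S (node S b n ++ [b n (node S b n)]) := rfl

theorem rc_node {S : List Bool → List Bool} {b : ℕ → List Bool → Bool} (hS : RC O S)
    (hb : RC O fun p : ℕ × List Bool => b p.1 p.2) : RC O (node S b) := by
  have h1 : RC O fun _ : Unit => S [] := hS.comp (RC.const [])
  have h2 : RC O fun p : Unit × ℕ × List Bool => S (p.2.2 ++ [b p.2.1 p.2.2]) := by
    refine hS.comp ?_
    refine RC.ofComp₂ (f := fun (σ : List Bool) (b : Bool) => σ ++ [b])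
      Computable.list_concat (RC.ofPrim (Primrec.snd.comp Primrec.snd)) ?_
    exact hb.comp (RC.ofPrim Primrec.snd)
  exact ((h1.nat_rec h2).comp ((RC.const ()).pair RC.id)).congr fun n => rfl

/-- The splitting operation chosen for `T`. -/
structure IsSplitter (T : Set (List Bool)) (S : List Bool → List Bool) : Prop where
  rc : RC {real (treeReal T)} S
  spec : ∀ σ ∈ T, σ <+: S σ ∧ S σ ++ [false] ∈ T ∧ S σ ++ [true] ∈ T

section

variable {S : List Bool → List Bool}

theorem node_mem (hT : PerfectTree T) (hS : IsSplitter T S) (b : ℕ → List Bool → Bool) (n : ℕ) :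
    ∀ c : Bool, node S b n ++ [c] ∈ T := by
  induction n with
  | zero =>
    have h := hS.spec [] hT.nil
    intro c
    cases c
    · exact h.2.1
    · exact h.2.2
  | succ n ih =>
    have h := hS.spec _ (ih (b n (node S b n)))
    intro c
    rw [node_succ]
    cases c
    · exact h.2.1
    · exact h.2.2

theorem node_prefix (hT : PerfectTree T) (hS : IsSplitter T S) (b : ℕ → List Bool → Bool)
    (n : ℕ) : node S b n ++ [b n (node S b n)] <+: node S b (n + 1) :=
  (hS.spec _ (node_mem hT hS b n _)).1

theorem node_le (hT : PerfectTree T) (hS : IsSplitter T S) (b : ℕ → List Bool → Bool)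
    {m n : ℕ} (h : m ≤ n) : node S b m <+: node S b n := by
  induction n, h using Nat.le_induction with
  | base => exact List.prefix_rfl
  | succ n _ ih =>
    exact ih.trans ((List.prefix_append _ _).trans (node_prefix hT hS b n))

theorem le_length_node (hT : PerfectTree T) (hS : IsSplitter T S) (b : ℕ → List Bool → Bool)
    (n : ℕ) : n ≤ (node S b n).length := by
  induction n with
  | zero => exact Nat.zero_le _
  | succ n ih =>
    have := (node_prefix hT hS b n).length_le
    simp at this
    omega

/-- The embedding of Cantor space into `[T]`. -/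
def emb (S : List Bool → List Bool) (w : ℕ → Bool) : ℕ → Bool :=
  fun n => (node S (fun i _ => w i) (n + 1)).getD n false

theorem getD_of_prefix {σ τ : List Bool} (h : σ <+: τ) {i : ℕ} (hi : i < σ.length) :
    σ.getD i false = τ.getD i false := by
  obtain ⟨ρ, rfl⟩ := h
  rw [List.getD_append _ _ _ _ hi]

theorem emb_eq (hT : PerfectTree T) (hS : IsSplitter T S) (w : ℕ → Bool) {n i : ℕ}
    (hi : i < (node S (fun i _ => w i) n).length) :
    (node S (fun i _ => w i) n).getD i false = emb S w i := by
  unfold emb
  rcases le_total n (i + 1) with h | h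
  · exact getD_of_prefix (node_le hT hS _ h) hi
  · exact (getD_of_prefix (node_le hT hS _ h) (by
      have := le_length_node hT hS (fun i _ => w i) (i + 1)
      omega)).symm

theorem ini_emb (hT : PerfectTree T) (hS : IsSplitter T S) (w : ℕ → Bool) (n : ℕ) :
    node S (fun i _ => w i) n = ini (emb S w) (node S (fun i _ => w i) n).length :=
  eq_ini fun _ hi => emb_eq hT hS w hi

theorem emb_mem (hT : PerfectTree T) (hS : IsSplitter T S) (w : ℕ → Bool) :
    emb S w ∈ branches T := by
  intro n
  have h1 : node S (fun i _ => w i) n ∈ T :=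
    hT.closed _ _ (node_mem hT hS _ n true) (List.prefix_append _ _)
  refine hT.closed _ _ h1 ?_
  rw [ini_emb hT hS w n]
  have hn := le_length_node hT hS (fun i _ => w i) n
  generalize (node S (fun i _ => w i) n).length = m at hn
  rw [List.prefix_iff_eq_take, ini_length]
  unfold ini
  rw [← List.map_take, List.take_range, min_eq_left hn]

theorem emb_length_node (hT : PerfectTree T) (hS : IsSplitter T S) (w : ℕ → Bool) (n : ℕ) :
    emb S w (node S (fun i _ => w i) n).length = w n := by
  have h1 := node_prefix hT hS (fun i _ => w i) n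
  have h2 : (node S (fun i _ => w i) n).length <
      (node S (fun i _ => w i) n ++ [w n]).length := by simp
  have h3 := getD_of_prefix h1 h2
  rw [emb_eq hT hS w (lt_of_lt_of_le h2 h1.length_le)] at h3
  rw [← h3]
  simp

theorem rc_emb (hS : IsSplitter T S) {w : ℕ → Bool} (h : RC O (treeReal T)) (hw : RC O w) :
    RC O (emb S w) := by
  have h0 : RC O S := by
    obtain ⟨F, hF, hF'⟩ := hS.rc
    obtain ⟨G, hG, hG'⟩ := h
    refine ⟨F, Nat.RecursiveIn.subst hF ?_, hF'⟩
    intro g hg
    rw [Set.mem_singleton_iff] at hg
    subst hg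
    refine hG.of_eq fun n => ?_
    have := hG' n
    rw [encode_nat] at this
    simp only [real]
    rw [this]
    cases treeReal T n <;> rfl
  have h1 : RC O (node S fun i _ => w i) := rc_node h0 (hw.comp (RC.ofPrim Primrec.fst))
  have h2 : RC O fun n : ℕ => node S (fun i _ => w i) (n + 1) :=
    h1.comp (RC.ofPrim Primrec.succ)
  exact RC.ofComp₂ (f := fun (σ : List Bool) (n : ℕ) => σ.getD n false)
    (Primrec.list_getD false).to_comp h2 RC.id

end

end Pool.Agent.Lib.P704aa6
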